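import Pool.Agent.J4H47.VH.Defs

/-!
# Flat classes which are algebraic on given fibres: closure properties
-/

open CategoryTheory AlgebraicGeometry Filter Topology

open scoped ENNReal

universe u v

namespace Pool.Agent.J4H47.VH

open Pool.Agent.H914 Pool.Agent.H447 Pool.Agent.W534 Pool.Agent.Y163 VarClass Obj WeilCohomology
  Module Pool.Agent.R940
open Pool.Agent.Y133.Half (ClassPred cycRank dimOf)

variable {k : Type u} [Field k] {𝒱 : VarClass k} {ops : CycleOps 𝒱}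
  {k₀ : Type u} [Field k₀] {𝒱₀ : VarClass k₀} {ops₀ : CycleOps 𝒱₀}
  {W : WeilCohomology.{u, v} ops} {W₀ : WeilCohomology.{u, v} ops₀} {ι : Type}
  {X Y Z : 𝒱.Obj}

/-! ### Flat classes -/

namespace Monodromy

variable (M : Monodromy.{u, v} W)

/-- The class `c` is fixed by a subgroup of finite index. -/
abbrev Flat (X : 𝒱.Obj) (c : W.H X) : Prop := FlatIn (M.U X) (M.ρ X) c

variable {M}

lemma Flat.zero : M.Flat X 0 := by
  refine ⟨M.U X, le_rfl, (M.isAction X).finiteIndex, fun g hg => ?_⟩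
  have h := (M.isAction X).smul g hg 0 0
  rwa [zero_smul, zero_smul] at h

lemma Flat.add {a b : W.H X} (ha : M.Flat X a) (hb : M.Flat X b) : M.Flat X (a + b) := by
  obtain ⟨Δ, h0, _, h1⟩ := ha
  obtain ⟨Δ', h0', _, h2⟩ := hb
  exact ⟨Δ ⊓ Δ', inf_le_left.trans h0, inferInstance, fun g hg => by
    rw [(M.isAction X).add g (h0 hg.1), h1 g hg.1, h2 g hg.2]⟩

lemma Flat.smul (r : W.K) {a : W.H X} (ha : M.Flat X a) : M.Flat X (r • a) := by
  obtain ⟨Δ, h0, hΔ, h1⟩ := ha
  exact ⟨Δ, h0, hΔ, fun g hg => by rw [(M.isAction X).smul g (h0 hg), h1 g hg]⟩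

lemma Flat.mul {a b : W.H X} (ha : M.Flat X a) (hb : M.Flat X b) : M.Flat X (a * b) := by
  obtain ⟨Δ, h0, _, h1⟩ := ha
  obtain ⟨Δ', h0', _, h2⟩ := hb
  exact ⟨Δ ⊓ Δ', inf_le_left.trans h0, inferInstance, fun g hg => by
    rw [(M.isAction X).mul g (h0 hg.1), h1 g hg.1, h2 g hg.2]⟩

lemma Flat.map (f : X ⟶ Y) {a : W.H Y} (ha : M.Flat Y a) : M.Flat X (W.map f a) := by
  obtain ⟨Δ, h0, _, h1⟩ := ha
  obtain ⟨Δ', _, h2⟩ := M.map f
  have := (M.isAction X).finiteIndex
  refine ⟨Δ ⊓ Δ' ⊓ M.U X, inf_le_right, inferInstance, fun g hg => ?_⟩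
  rw [← h2 g hg.1.2, h1 g hg.1.1]

lemma surj {g : M.Γ} (hg : g ∈ M.U X) (b : W.H X) : ∃ b', M.ρ X g b' = b :=
  ⟨M.ρ X g⁻¹ b, by
    rw [← (M.isAction X).comp g hg _ ((M.U X).inv_mem hg), mul_inv_cancel, (M.isAction X).one]⟩

lemma Flat.push (f : X ⟶ Y) {a : W.H X} (ha : M.Flat X a) : M.Flat Y (W.push f a) := by
  obtain ⟨Δ, h0, _, h1⟩ := ha
  obtain ⟨Δ', _, h2⟩ := M.map f
  have := (M.isAction Y).finiteIndex
  refine ⟨Δ ⊓ Δ' ⊓ M.U Y, inf_le_right, inferInstance, fun g hg => ?_⟩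
  have hX : g ∈ M.U X := h0 hg.1.1
  have hY : g ∈ M.U Y := hg.2
  have key : ∀ b : W.H Y, W.map f (M.ρ Y g b) = M.ρ X g (W.map f b) := fun b => h2 g hg.1.2 b
  apply W.tr_ext
  intro b
  obtain ⟨b', rfl⟩ := surj hY b
  rw [← (M.isAction Y).mul g hY, (M.isAction Y).tr g hY, W.tr_push, W.tr_push, key]
  conv_rhs => rw [← h1 g hg.1.1]
  rw [← (M.isAction X).mul g hX, (M.isAction X).tr g hX]

end Monodromy

/-! ### Specialization -/

namespace Fibre

variable (S : Fibre W W₀)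

lemma sp_zero : S.sp X 0 = 0 := by
  have h := (S.isTransport X).add 0 0
  rw [add_zero] at h
  exact left_eq_add.1 h

lemma sp_one : S.sp X 1 = 1 := by
  obtain ⟨b, hb⟩ := (S.isTransport X).bijective.2 1
  have h := (S.isTransport X).mul 1 b
  rw [one_mul, hb, mul_one] at h
  exact h.symm

lemma sp_pow (a : W.H X) (m : ℕ) : S.sp X (a ^ m) = S.sp X a ^ m := by
  induction m with
  | zero => rw [pow_zero, pow_zero, sp_one]
  | succ m ih => rw [pow_succ, (S.isTransport X).mul, ih, pow_succ]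

end Fibre

/-- Algebraic correspondences and algebraic classes on a fibre. -/
lemma Fibre.stable (S : Fibre W W₀) {d : ℤ} {φ : W.H X →ₗ[W.K] W.H Y} (hφ : φ ∈ KOp W X Y d)
    {j j' : ℕ} (hj : (j' : ℤ) = j + d) {a : W.H X} (ha : S.Alg X j a) : S.Alg Y j' (φ a) := by
  unfold Fibre.Alg at ha ⊢
  induction hφ using Submodule.span_induction with
  | mem f hf =>
    obtain ⟨p, hp, z, hz, rfl⟩ := hf
    obtain ⟨z₀, hz₀, h1⟩ := S.corr hz
    have h1' := h1 a
    unfold act at h1'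
    rw [← h1']
    have h2 : W₀.corr (W₀.cl _ z₀) ∈ KOp W₀ (S.F X) (S.F Y) d :=
      KOp.gen (by rw [hp, S.dim]) hz₀
    exact (spanS W₀).stable h2 hj ha
  | zero => rw [LinearMap.zero_apply, S.sp_zero]; exact Submodule.zero_mem _
  | add f g _ _ hf hg =>
    rw [LinearMap.add_apply, (S.isTransport Y).add]; exact Submodule.add_mem _ hf hg
  | smul r f _ hf =>
    rw [LinearMap.smul_apply, (S.isTransport Y).smul]; exact Submodule.smul_mem _ _ hf

/-- The push-forward is an algebraic correspondence. -/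
lemma push_mem_KOp (f : X ⟶ Y) : W.push f ∈ KOp W X Y ((Y.dim : ℤ) - X.dim) := by
  have hz : (X.prod Y).IsCyc Y.dim (ops.push (Obj.lift (𝟙 X) f) X.V.fundCycle) := by
    refine ops.push_mem _ (p := 0) ?_ ?_
    · exact SmVar.fundCycle_mem X.V
    · rw [dim_prod]; omega
  have h : W.corr (W.cl _ (ops.push (Obj.lift (𝟙 X) f) X.V.fundCycle)) = W.push f := by
    ext a
    rw [corr_apply, W.cl_push, W.cl_fund, ← W.push_mul, one_mul, ← W.map_comp, ← W.push_comp,
      lift_fst, lift_snd, W.map_id]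
  rw [← h]
  exact KOp.gen (by ring) hz

/-- The product of algebraic classes. -/
lemma mul_span {V : 𝒱₀.Obj} {i j : ℕ} {a b : W₀.H V} (ha : a ∈ spanCycles W₀ V i)
    (hb : b ∈ spanCycles W₀ V j) : a * b ∈ spanCycles W₀ V (i + j : ℕ) := by
  induction ha using Submodule.span_induction with
  | mem x hx =>
    obtain ⟨p, hp, z, hz, rfl⟩ := hx
    obtain rfl : p = i := by exact_mod_cast hp
    exact (spanS W₀).cl_mul hz hb
  | zero => rw [zero_mul]; exact Submodule.zero_mem _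
  | add x y _ _ hx hy => rw [add_mul]; exact Submodule.add_mem _ hx hy
  | smul r x _ hx => rw [smul_mul_assoc]; exact Submodule.smul_mem _ _ hx

/-- The flat classes which are algebraic on the given fibres, as a class of cohomology classes. -/
noncomputable def flatPred (M : Monodromy.{u, v} W) (S : ι → Fibre W W₀) : ClassPred W where
  P := FlatAlg M S
  gr h := h.1
  zero := ⟨Submodule.zero_mem _, Monodromy.Flat.zero, fun i => by
    unfold Fibre.Alg; rw [(S i).sp_zero]; exact Submodule.zero_mem _⟩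
  add ha hb := ⟨Submodule.add_mem _ ha.1 hb.1, Monodromy.Flat.add ha.2.1 hb.2.1, fun i => by
    unfold Fibre.Alg
    rw [((S i).isTransport _).add]; exact Submodule.add_mem _ (ha.2.2 i) (hb.2.2 i)⟩
  smul r _ ha := ⟨Submodule.smul_mem _ _ ha.1, Monodromy.Flat.smul r ha.2.1, fun i => by
    unfold Fibre.Alg
    rw [((S i).isTransport _).smul]; exact Submodule.smul_mem _ _ (ha.2.2 i)⟩
  cl {X j z} hz := ⟨W.cl_mem hz, M.cl hz, fun i => by
    obtain ⟨z₀, hz₀, h⟩ := (S i).cl hz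
    unfold Fibre.Alg
    unfold cls at h
    rw [← h]
    exact mem_span_cl hz₀⟩
  mul {X i j a b} ha hb := by
    refine ⟨?_, Monodromy.Flat.mul ha.2.1 hb.2.1, fun l => ?_⟩
    · have := W.mul_mem ha.1 hb.1
      rwa [← mul_add] at this
    · unfold Fibre.Alg
      rw [((S l).isTransport _).mul]
      exact mul_span (ha.2.2 l) (hb.2.2 l)
  map {X Y} f {j a} ha := ⟨W.map_mem f ha.1, Monodromy.Flat.map f ha.2.1, fun i =>
    (S i).stable (φ := (W.map f).toLinearMap) (map_mem_KOp f) (by ring) (ha.2.2 i)⟩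
  push {X Y} f {j l} hl a ha := by
    refine ⟨?_, Monodromy.Flat.push f ha.2.1, fun i =>
      (S i).stable (push_mem_KOp f) (by zify at hl; linarith) (ha.2.2 i)⟩
    have h2 := W.push_mem f ha.1
    have e1 : ((2 * j : ℕ) : ℤ) + 2 * ((Y.dim : ℤ) - X.dim) = ((2 * l : ℕ) : ℤ) := by
      push_cast
      zify at hl
      linarith
    rw [e1, grZ_natCast] at h2
    exact h2

end Pool.Agent.J4H47.VH
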