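import Pool.Agent.R920.PL.Law
import Pool.Agent.Y133.Half.PairDefs

/-!
# Flat classes which are algebraic on given fibres: definitions

Let `S` be a smooth connected complex variety and `k` an algebraic closure of its function field. In
the intended use `𝒱` is the class of the smooth projective varieties over `k` which extend to smooth
projective families over a finite étale covering of `S`, `W` is the theory `X ↦ H(X_b, ℚ)`, the
cohomology of the fibre at a very general point `b` of `S` (a Weil cohomology theory of the geometric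
generic fibre), `𝒱₀` is the class of the smooth projective complex varieties and `W₀` their
cohomology with rational coefficients.
-/

open CategoryTheory AlgebraicGeometry

universe u v

namespace Pool.Agent.J4H47.VH

section Alg

variable {K : Type*} [Field K] {A : Type*} [Ring A] [Algebra K A]
  {K₀ : Type*} [Field K₀] {A₀ : Type*} [Ring A₀] [Algebra K₀ A₀] {Γ : Type*} [Group Γ]

/-- The subgroup `U` of finite index acts on the graded algebra `A` by automorphisms which preserve
the degrees and the orientation `tr`. (The maps `ρ g` for `g` outside `U` have no meaning.) -/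
structure IsAction (gr : ℕ → Submodule K A) (tr : A →ₗ[K] K) (U : Subgroup Γ) (ρ : Γ → A → A) :
    Prop where
  finiteIndex : U.FiniteIndex
  one : ∀ a, ρ 1 a = a
  comp : ∀ g ∈ U, ∀ h ∈ U, ∀ a, ρ (g * h) a = ρ g (ρ h a)
  add : ∀ g ∈ U, ∀ a b, ρ g (a + b) = ρ g a + ρ g b
  mul : ∀ g ∈ U, ∀ a b, ρ g (a * b) = ρ g a * ρ g b
  smul : ∀ g ∈ U, ∀ (r : K) (a : A), ρ g (r • a) = r • ρ g a
  gr : ∀ g ∈ U, ∀ (i : ℕ), ∀ a ∈ gr i, ρ g a ∈ gr i
  tr : ∀ g ∈ U, ∀ a, tr (ρ g a) = tr a

/-- The element `a` is fixed by a subgroup of finite index, contained in `U`. -/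
def FlatIn {A : Type*} (U : Subgroup Γ) (ρ : Γ → A → A) (a : A) : Prop :=
  ∃ Δ ≤ U, Δ.FiniteIndex ∧ ∀ g ∈ Δ, ρ g a = a

/-- The map `f` is equivariant for a subgroup of finite index. -/
def Equivar {A B : Type*} (ρ : Γ → A → A) (τ : Γ → B → B) (f : A → B) : Prop :=
  ∃ Δ : Subgroup Γ, Δ.FiniteIndex ∧ ∀ g ∈ Δ, ∀ a, f (ρ g a) = τ g (f a)

/-- The map `sp` is an isomorphism of graded rings which is compatible with the identification `σ` of
the coefficients. -/
structure IsTransport (gr : ℕ → Submodule K A) (gr₀ : ℕ → Submodule K₀ A₀) (σ : K → K₀)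
    (sp : A → A₀) : Prop where
  bijective : Function.Bijective sp
  add : ∀ a b, sp (a + b) = sp a + sp b
  mul : ∀ a b, sp (a * b) = sp a * sp b
  smul : ∀ (r : K) (a : A), sp (r • a) = σ r • sp a
  gr : ∀ (i : ℕ) (a : A), a ∈ gr i ↔ sp a ∈ gr₀ i

/-- `D` has the injectivity in the hard Lefschetz theorem in the even degrees and, for the elements of
the sets `P j`, the Hodge-Riemann relations in dimension `n`. -/
structure IsAmple [Algebra K ℝ] (gr : ℕ → Submodule K A) (n : ℕ) (tr : A →ₗ[K] K) (D : A)
    (P : ℕ → Set A) : Prop where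
  inj : ∀ j, 2 * j ≤ n → ∀ x ∈ gr (2 * j), D ^ (n - 2 * j) * x = 0 → x = 0
  pos : ∀ j, 2 * j ≤ n → ∀ x ∈ gr (2 * j), x ∈ P j → D ^ (n - 2 * j + 1) * x = 0 → x ≠ 0 →
    0 < (-1 : ℝ) ^ j * algebraMap K ℝ (tr (D ^ (n - 2 * j) * x * x))

/-- The Lefschetz isomorphisms map the elements of the sets `P j` onto those of `P (n - j)`. -/
def LefOnto {A : Type*} [Ring A] (n : ℕ) (D : A) (P : ℕ → Set A) : Prop :=
  ∀ j, 2 * j ≤ n → ∀ v ∈ P (n - j), ∃ x ∈ P j, D ^ (n - 2 * j) * x = v

end Alg

open Pool.Agent.H914 VarClass Obj WeilCohomology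

variable {k : Type u} [Field k] {𝒱 : VarClass k} {ops : CycleOps 𝒱}
  {k₀ : Type u} [Field k₀] {𝒱₀ : VarClass k₀} {ops₀ : CycleOps 𝒱₀}

/-- The class of the cycle `z`. -/
noncomputable def cls (W : WeilCohomology.{u, v} ops) {X : 𝒱.Obj} (z : X.Cycles) : W.H X := W.cl X z

/-- The image `pr₂_* (cl z · pr₁^* a)` of the class `a` under the algebraic correspondence `z`. -/
noncomputable def act (W : WeilCohomology.{u, v} ops) {X Y : 𝒱.Obj} (z : (X.prod Y).Cycles)
    (a : W.H X) : W.H Y := W.corr (W.cl _ z) a

/-- The monodromy: the fundamental group `Γ` of the base; for each variety `X` the subgroup `U X` of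
finite index which belongs to a finite étale covering of the base over which there is a model of `X`,
and its action on the cohomology of `X`. A morphism is equivariant and the class of a cycle is
invariant under a subgroup of finite index (they are defined over a finite extension of the
function field). -/
structure Monodromy (W : WeilCohomology.{u, v} ops) where
  /-- the fundamental group of the base -/
  Γ : Type
  [group : Group Γ]
  /-- the fundamental group of the covering over which `X` is defined -/
  U : 𝒱.Obj → Subgroup Γ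
  /-- the monodromy -/
  ρ : ∀ X, Γ → W.H X → W.H X
  isAction : ∀ X, IsAction (W.gr X) (W.tr X) (U X) (ρ X)
  map : ∀ {X Y : 𝒱.Obj} (f : X ⟶ Y), Equivar (ρ Y) (ρ X) (W.map f)
  cl : ∀ {X : 𝒱.Obj} {j : ℕ} {z : X.Cycles}, X.IsCyc j z → FlatIn (U X) (ρ X) (cls W z)

attribute [instance] Monodromy.group

/-- The fibres at a point of (the universal covering of) the base: `F X` is the fibre of a model of
`X` and `sp` the parallel transport in the cohomology. Cycles and algebraic correspondences
specialize to the fibres. -/
structure Fibre (W : WeilCohomology.{u, v} ops) (W₀ : WeilCohomology.{u, v} ops₀) where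
  /-- the fibre of the model of `X` -/
  F : 𝒱.Obj → 𝒱₀.Obj
  dim : ∀ X, (F X).dim = X.dim
  /-- the coefficients of the two theories are identified -/
  σ : W.K → W₀.K
  /-- the parallel transport from the cohomology of `X` to the cohomology of the fibre -/
  sp : ∀ X, W.H X → W₀.H (F X)
  isTransport : ∀ X, IsTransport (W.gr X) (W₀.gr (F X)) σ (sp X)
  cl : ∀ {X : 𝒱.Obj} {j : ℕ} {z : X.Cycles}, X.IsCyc j z →
    ∃ z₀ : (F X).Cycles, (F X).IsCyc j z₀ ∧ cls W₀ z₀ = sp X (cls W z)
  corr : ∀ {X Y : 𝒱.Obj} {j : ℕ} {z : (X.prod Y).Cycles}, (X.prod Y).IsCyc j z →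
    ∃ z₀ : ((F X).prod (F Y)).Cycles, ((F X).prod (F Y)).IsCyc j z₀ ∧
      ∀ a : W.H X, act W₀ z₀ (sp X a) = sp Y (act W z a)

variable {W : WeilCohomology.{u, v} ops} {W₀ : WeilCohomology.{u, v} ops₀} {ι : Type}

/-- The class `c` in `H^(2 j)` is a linear combination of classes of cycles on the fibre. -/
def Fibre.Alg (S : Fibre W W₀) (X : 𝒱.Obj) (j : ℕ) (c : W.H X) : Prop :=
  S.sp X c ∈ spanCycles W₀ (S.F X) j

/-- The class `c` in `H^(2 j)` is flat over a finite étale covering of the base (it is fixed by a
subgroup of finite index of the fundamental group), and it is algebraic on the fibres at all the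
points of the set `ι`. -/
def FlatAlg (M : Monodromy.{u, v} W) (S : ι → Fibre W W₀) (X : 𝒱.Obj) (j : ℕ) (c : W.H X) :
    Prop :=
  c ∈ W.gr X (2 * j) ∧ FlatIn (M.U X) (M.ρ X) c ∧ ∀ i, (S i).Alg X j c

/-- The variational Hodge conjecture for the family with the geometric generic fibre `X` and its base
changes to finite étale coverings of the base: a flat class which is algebraic on the fibres at the
points of the set `ι` (in the conjecture: on one fibre) is algebraic on the geometric generic fibre,
and hence on all fibres. -/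
def VHC (M : Monodromy.{u, v} W) (S : ι → Fibre W W₀) (X : 𝒱.Obj) : Prop :=
  ∀ j c, FlatAlg M S X j c → c ∈ spanCycles W X j

/-- The divisor `D` has the properties of an ample divisor, for the classes which are algebraic on one
of the fibres, and the standard conjecture of Lefschetz type holds for the fibres at the points of
the set `ι`: the Lefschetz isomorphisms map algebraic classes onto algebraic classes (this is known
for abelian varieties and for surfaces, for example). -/
structure LefschetzFibres [Algebra W.K ℝ] (S : ι → Fibre W W₀) (X : 𝒱.Obj) (D : X.Cycles) :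
    Prop where
  cyc : X.IsCyc 1 D
  ample : IsAmple (W.gr X) X.dim (W.tr X) (cls W D) fun j => {x | ∃ i, (S i).Alg X j x}
  lef : ∀ i, LefOnto X.dim ((S i).sp X (cls W D)) fun j => {x | x ∈ spanCycles W₀ ((S i).F X) j}

end Pool.Agent.J4H47.VH
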