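import Pool.Agent.J4H47.VH.Pred
import Pool.Agent.Y133.Half.PairPred
import Pool.Agent.J4H47.AH.Mot

/-!
# The index laws for flat classes which are algebraic on given fibres
-/

open CategoryTheory AlgebraicGeometry Filter Topology

open scoped ENNReal

universe u v

namespace Pool.Agent.J4H47.VH

open Pool.Agent.H914 Pool.Agent.H447 Pool.Agent.W534 VarClass Obj WeilCohomology Module
  Pool.Agent.R940
open Pool.Agent.Y133.Half (ClassPred cycRank dimOf dimBy HasIndex AtMostHalf algDim)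

variable {k : Type u} [Field k] {𝒱 : VarClass k} {ops : CycleOps 𝒱}
  {k₀ : Type u} [Field k₀] {𝒱₀ : VarClass k₀} {ops₀ : CycleOps 𝒱₀}
  {W : WeilCohomology.{u, v} ops} {W₀ : WeilCohomology.{u, v} ops₀} {ι : Type}
  {X Y Z : 𝒱.Obj}

/-- A class is flat if its product with a power of a flat class is flat and this power acts
injectively. -/
lemma flat_div {M : Monodromy.{u, v} W} {D x : W.H X} {i m : ℕ}
    (hD : M.Flat X D) (hinj : ∀ y ∈ W.gr X i, D ^ m * y = 0 → y = 0) (hx : x ∈ W.gr X i)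
    (hv : M.Flat X (D ^ m * x)) : M.Flat X x := by
  obtain ⟨Δ, h0, _, h1⟩ := hD
  obtain ⟨Δ', h0', _, h2⟩ := hv
  have hA := M.isAction X
  have hpow : ∀ g ∈ M.U X, ∀ (a : W.H X) (m : ℕ), M.ρ X g a = a → M.ρ X g (a ^ m) = a ^ m := by
    intro g hg a m ha
    induction m with
    | zero =>
      rw [pow_zero]
      obtain ⟨b, hb⟩ := Monodromy.surj hg (1 : W.H X)
      have h := hA.mul g hg 1 b
      rw [one_mul, hb, mul_one] at h
      exact h.symm
    | succ m ih => rw [pow_succ, hA.mul g hg, ih, ha]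
  refine ⟨Δ ⊓ Δ', inf_le_left.trans h0, inferInstance, fun g hg => ?_⟩
  have hU : g ∈ M.U X := h0 hg.1
  rw [← sub_eq_zero]
  apply hinj _ (Submodule.sub_mem _ (hA.gr g hU _ _ hx) hx)
  have h3 := h2 g hg.2
  rw [hA.mul g hU, hpow g hU _ m (h1 g hg.1)] at h3
  rw [mul_sub, h3, sub_self]

/-- The Hodge-Riemann relations and the Lefschetz isomorphisms for the flat classes which are
algebraic on given fibres. -/
lemma flat_hr [Nonempty ι] [Algebra W.K ℝ] (M : Monodromy.{u, v} W) {S : ι → Fibre W W₀}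
    {D : X.Cycles} (h : LefschetzFibres S X D) : (flatPred M S).HR X D := by
  have hDP : (flatPred M S).P X 1 (W.cl X D) := (flatPred M S).cl h.cyc
  have hinj : ∀ j, 2 * j ≤ X.dim → ∀ x ∈ W.gr X (2 * j),
      W.cl X D ^ (X.dim - 2 * j) * x = 0 → x = 0 := h.ample.inj
  refine ⟨h.cyc, fun j hj v hv => ?_, fun j hj x hx hp hne => ?_⟩
  · obtain ⟨hv1, hv2, hv3⟩ := hv
    have key : ∀ i, ∃ y ∈ W.gr X (2 * j), (S i).Alg X j y ∧
        W.cl X D ^ (X.dim - 2 * j) * y = v := by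
      intro i
      obtain ⟨x, hx, hxv⟩ := h.lef i j hj _ (hv3 i)
      obtain ⟨y, rfl⟩ := ((S i).isTransport X).bijective.2 x
      refine ⟨y, (((S i).isTransport X).gr _ _).2 (Pool.Agent.H914.span_gr hx), hx, ?_⟩
      apply ((S i).isTransport X).bijective.1
      rw [((S i).isTransport X).mul, (S i).sp_pow]
      exact hxv
    choose y hy1 hy2 hy3 using key
    let i₀ : ι := Classical.arbitrary ι
    have heq : ∀ i, y i = y i₀ := by
      intro i
      rw [← sub_eq_zero]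
      apply hinj j hj _ (Submodule.sub_mem _ (hy1 i) (hy1 i₀))
      rw [mul_sub, hy3, hy3, sub_self]
    refine ⟨y i₀, ⟨hy1 i₀, ?_, fun i => ?_⟩, hy3 i₀⟩
    · refine flat_div (m := X.dim - 2 * j) hDP.2.1 (hinj j hj) (hy1 i₀) ?_
      rw [hy3]
      exact hv2
    · rw [← heq i]
      exact hy2 i
  · exact h.ample.pos j hj x hx.1 ⟨Classical.arbitrary ι, hx.2.2 _⟩ hp hne

open Pool.Agent.Y133.Half (pw) in
/-- The index law for the flat classes which are algebraic on given fibres. -/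
theorem flat_index (M : Monodromy.{u, v} W) (S : ι → Fibre W W₀) (X : 𝒱.Obj)
    [Nontrivial (W.H X)] : ∃ N : ℕ∞, 1 ≤ N ∧
      HasIndex (fun n => dimBy W (FlatAlg M S) (pw X n)) (fun n => cycRank ops (pw X n)) N ∧
      (N = 1 ↔ ∀ n, VHC M S (pw X n) ∧ HomEqNum W (pw X n)) ∧
      (N ≠ ⊤ → ∀ n, HomEqNum W (pw X n)) := by
  obtain ⟨N, h1, h2, -, h4, h5⟩ :=
    (flatPred M S).sys.index (fun _ => ClassPred.alg_le) X
  refine ⟨N, h1, h2, h4.trans ?_, h5⟩
  exact forall_congr' fun n => and_congr_left' (ClassPred.sp_eq_iff (Q := flatPred M S) (pw X n))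

/-- The effective index law for the flat classes which are algebraic on given fibres. -/
theorem flat_effective (M : Monodromy.{u, v} W) (S : ι → Fibre W W₀) (X : 𝒱.Obj)
    (D : X.Cycles) (hD : X.IsCyc 1 D) (hbig : Pool.Agent.Y163.Big ops X D) (hX : SignStd W X)
    (a r : ℕ → ℕ)
    (ha : ∀ n, a n = dimOf W {c | FlatAlg M S (Pool.Agent.Y163.sq X n) ((n + 1) * X.dim) c})
    (hr : ∀ n, r n = numRank ops (Pool.Agent.Y163.sq X n) ((n + 1) * X.dim)) :
    (∀ n, 0 < r n ∧ r n ≤ a n ∧ a n ≤ (n + 2) ^ (Pool.Agent.R940.betti W X ^ 2) * r n) ∧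
    ∀ κ, (VHC M S (Pool.Agent.Y163.pw X κ) ∧
      HomEqNum W (Pool.Agent.Y163.pw X κ)) ∨
        NearlyTwice (indexConst (Pool.Agent.R940.betti W X) κ) a r := by
  obtain rfl := funext ha
  obtain rfl := funext hr
  have e : ∀ n, dimOf W {c | FlatAlg M S (Pool.Agent.Y163.sq X n) ((n + 1) * X.dim) c} =
      finrank W.K (Pool.Agent.R920.PL.deg (flatPred M S) (Pool.Agent.Y163.sq X n)
        ((n + 1) * X.dim)) := by
    intro n
    have h1 : Submodule.span W.K {c | FlatAlg M S (Pool.Agent.Y163.sq X n) ((n + 1) * X.dim) c} =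
        Pool.Agent.R920.PL.deg (flatPred M S) (Pool.Agent.Y163.sq X n) ((n + 1) * X.dim) :=
      Submodule.span_eq (Pool.Agent.R920.PL.deg (flatPred M S) (Pool.Agent.Y163.sq X n)
        ((n + 1) * X.dim))
    rw [dimOf, Set.finrank, h1]
  have h := Pool.Agent.R920.PL.pred_law (flatPred M S) hX hD hbig
  simp only [← e] at h
  exact h

open Pool.Agent.Y133.Half (pw) in
/-- The tower law for two sets of fibres. -/
theorem flat_tower {ι' : Type} [Nonempty ι'] [Algebra W.K ℝ] (M : Monodromy.{u, v} W)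
    (S : ι → Fibre W W₀) (f : ι' → ι) (X : 𝒱.Obj) [Nontrivial (W.H X)]
    (hL : ∀ n, ∃ D, LefschetzFibres S (pw X n) D) :
    ∃ P N : ℕ∞, 1 ≤ P ∧ 1 ≤ N ∧
      HasIndex (fun n => dimBy W (FlatAlg M (S ∘ f)) (pw X n))
        (fun n => dimBy W (FlatAlg M S) (pw X n)) P ∧
      HasIndex (fun n => dimBy W (FlatAlg M S) (pw X n)) (fun n => cycRank ops (pw X n)) N ∧
      HasIndex (fun n => dimBy W (FlatAlg M (S ∘ f)) (pw X n))
        (fun n => cycRank ops (pw X n)) (P * N) ∧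
      (P = 1 ↔ ∀ n j c, FlatAlg M (S ∘ f) (pw X n) j c → FlatAlg M S (pw X n) j c) ∧
      (N = 1 ↔ ∀ n, VHC M S (pw X n)) ∧
      (P * N = 1 ↔ ∀ n, VHC M (S ∘ f) (pw X n)) ∧
      (P ≠ 1 → AtMostHalf (fun n => dimBy W (FlatAlg M S) (pw X n))
        (fun n => dimBy W (FlatAlg M (S ∘ f)) (pw X n))) ∧
      ∀ p : ℕ, p.Prime → P * N = p → P = 1 ∨ N = 1 := by
  have : Nonempty ι := ⟨f (Classical.arbitrary ι')⟩
  have hQR : ∀ {Z : 𝒱.Obj} {j : ℕ} {c : W.H Z}, (flatPred M S).P Z j c →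
      (flatPred M (S ∘ f)).P Z j c := fun h => ⟨h.1, h.2.1, fun i => h.2.2 (f i)⟩
  have hnd : ∀ n, (flatPred M S).sys.Nondeg (pw X n) := fun n => by
    obtain ⟨D, hD⟩ := hL n
    exact (flat_hr M hD).nondeg
  obtain ⟨P, N, h1, h2, h3, h4, h5, h6, h7, h8, -, -, -⟩ :=
    (flatPred M S).tower (flatPred M (S ∘ f)) hQR X hnd
  refine ⟨P, N, h1, h2, h3, h4, h5, h6, h7, ?_, h8, fun p hp => Pool.Agent.J4H47.AH.enat_prime hp⟩
  rw [Pool.Agent.J4H47.AH.enat_mul_eq_one, h6, h7]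
  constructor
  · rintro ⟨k1, k2⟩ n j c hc
    exact k2 n j c (k1 n j c hc)
  · intro k
    exact ⟨fun n j c hc => ClassPred.span_le (Q := flatPred M S) (k n j c hc),
      fun n j c hc => k n j c (hQR hc)⟩

end Pool.Agent.J4H47.VH
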